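import Pool.Agent.MP_161132_co.H85.Defs

namespace Pool.Agent.MP_161132_co.H85

open SimpleGraph

variable {V : Type}

lemma bdd [Fintype V] (G : SimpleGraph V) :
    BddAbove {m : ℕ | ∃ l : List V, IsDMPath G l ∧ l.length = m} := by
  refine ⟨Fintype.card V, ?_⟩
  rintro m ⟨l, hl, rfl⟩
  exact hl.1.length_le_card

lemma le_mp [Fintype V] {G : SimpleGraph V} {l : List V} (hl : IsDMPath G l) :
    l.length ≤ mp G :=
  le_csSup (bdd G) ⟨l, hl, rfl⟩

lemma mp_le {G : SimpleGraph V} {k : ℕ}
    (H : ∀ l : List V, l.Nodup → l.IsChain G.Adj → l.IsChain (fun u v => deg G u ≤ deg G v) →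
      l.length ≤ k) : mp G ≤ k := by
  refine csSup_le' ?_
  rintro m ⟨l, ⟨h1, h2, h3 | h3⟩, rfl⟩
  · exact H l h1 h2 h3
  · have := H l.reverse (List.nodup_reverse.2 h1)
      (List.isChain_reverse.2 (h2.imp fun _ _ h => h.symm)) (List.isChain_reverse.2 h3)
    simpa using this

lemma deg_iso {W : Type} {G : SimpleGraph V} {G' : SimpleGraph W} (φ : G ≃g G') (v : V) :
    deg G' (φ v) = deg G v := by
  unfold deg
  rw [← Set.ncard_image_of_injective (G.neighborSet v) φ.injective]
  congr 1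
  ext w
  simp only [mem_neighborSet, Set.mem_image]
  constructor
  · intro h
    refine ⟨φ.symm w, ?_, by simp⟩
    rw [← φ.map_adj_iff]; simpa using h
  · rintro ⟨x, hx, rfl⟩
    exact φ.map_adj_iff.2 hx

lemma mp_iso_le {W : Type} [Fintype W] {G : SimpleGraph V} {G' : SimpleGraph W} (φ : G ≃g G') :
    mp G ≤ mp G' := by
  refine mp_le fun l h1 h2 h3 => ?_
  have : IsDMPath G' (l.map φ) := by
    refine ⟨h1.map φ.injective, ?_, Or.inl ?_⟩
    · rw [List.isChain_map]; exact h2.imp fun _ _ h => φ.map_adj_iff.2 h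
    · rw [List.isChain_map]; exact h3.imp fun _ _ h => by simpa [deg_iso] using h
  simpa using le_mp this

lemma saturated_comap {W : Type} [Fintype V] [Fintype W] {k : ℕ} {G : SimpleGraph V}
    (e : W ≃ V) (hG : Saturated k G) : Saturated k (G.comap e) := by
  refine ⟨lt_of_le_of_lt (mp_iso_le (Iso.comap e G)) hG.1, fun u v huv hadj => ?_⟩
  have h1 := hG.2 (e u) (e v) (fun h => huv (e.injective h)) hadj
  refine h1.trans (mp_iso_le (G := G ⊔ edge (e u) (e v)) (G' := G.comap e ⊔ edge u v)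
    ⟨e.symm, ?_⟩)
  intro a b
  simp only [sup_adj, comap_adj, edge_adj, Equiv.apply_symm_apply, Equiv.symm_apply_eq, ne_eq,
    EmbeddingLike.apply_eq_iff_eq]

lemma ncard_edge_comap {W : Type} (G : SimpleGraph V) (e : W ≃ V) :
    (G.comap e).edgeSet.ncard = G.edgeSet.ncard := by
  have := (Iso.comap e G).mapEdgeSet
  exact Set.ncard_congr' this

lemma deg_sup_edge_of_ne {G : SimpleGraph V} {x y v : V} (hx : v ≠ x) (hy : v ≠ y) :
    deg (G ⊔ edge x y) v = deg G v := by
  unfold deg
  congr 1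
  ext w
  simp [edge_adj, hx, hy]

lemma deg_sup_edge_left [Fintype V] {G : SimpleGraph V} {x y : V} (hxy : x ≠ y)
    (h : ¬ G.Adj x y) : deg (G ⊔ edge x y) x = deg G x + 1 := by
  unfold deg
  rw [← Set.ncard_insert_of_notMem (a := y) (by simpa using h)]
  congr 1
  ext w
  simp only [mem_neighborSet, sup_adj, edge_adj, true_and, ne_eq, Set.mem_insert_iff]
  constructor
  · rintro (h | ⟨h | ⟨h, -⟩, -⟩)
    · exact Or.inr h
    · exact Or.inl h
    · exact absurd h hxy
  · rintro (rfl | h)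
    · exact Or.inr ⟨Or.inl rfl, hxy⟩
    · exact Or.inl h

lemma deg_sup_edge_right [Fintype V] {G : SimpleGraph V} {x y : V} (hxy : x ≠ y)
    (h : ¬ G.Adj x y) : deg (G ⊔ edge x y) y = deg G y + 1 := by
  rw [edge_comm]
  exact deg_sup_edge_left hxy.symm fun h' => h h'.symm

lemma saturated_bot (n : ℕ) : Saturated 2 (⊥ : SimpleGraph (Fin n)) := by
  refine ⟨Nat.lt_succ_of_le (mp_le fun l _ h2 _ => ?_), fun u v huv hadj => ?_⟩
  · match l, h2 with
    | [], _ => simp
    | [_], _ => simp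
    | _ :: _ :: _, h2 => simp at h2
  · have : IsDMPath ((⊥ : SimpleGraph (Fin n)) ⊔ edge u v) [u, v] := by
      refine ⟨by simpa using huv, by simp [edge_adj, huv], Or.inl ?_⟩
      simp only [List.isChain_cons_cons, List.isChain_singleton, and_true]
      rw [deg_sup_edge_left huv hadj, deg_sup_edge_right huv hadj]
      simp [deg]
    simpa using le_mp this

end Pool.Agent.MP_161132_co.H85
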