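import Pool.Agent.MP_161132_co.H85.Basic

namespace Pool.Agent.MP_161132_co.H85

open SimpleGraph

/-- the cycle neighbours of `a` -/
def cyc (m : ℕ) (a : ZMod m) : Set (ZMod m) := {c | a ≠ c ∧ (c = a + 1 ∨ a = c + 1)}

noncomputable def rr (m : ℕ) : ℕ := (cyc m 0).ncard

lemma ncard_cyc (m : ℕ) (a : ZMod m) : (cyc m a).ncard = rr m := by
  unfold rr
  rw [← Set.ncard_image_of_injective (cyc m 0) (add_left_injective a)]
  congr 1
  ext c
  simp only [cyc, ne_eq, Set.mem_ofPred_eq, zero_add, Set.mem_image]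
  constructor
  · rintro ⟨h1, h2⟩
    refine ⟨c - a, ⟨fun h => h1 (by linear_combination h), ?_⟩, by ring⟩
    rcases h2 with h2 | h2
    · left; linear_combination h2
    · right; linear_combination h2
  · rintro ⟨x, ⟨h1, h2⟩, rfl⟩
    refine ⟨fun h => h1 (by linear_combination h), ?_⟩
    rcases h2 with h2 | h2
    · left; linear_combination h2
    · right; linear_combination h2

lemma rr_le (m : ℕ) : rr m ≤ 2 := by
  unfold rr
  have : cyc m 0 ⊆ {1, -1} := by
    rintro c ⟨-, h | h⟩
    · left; simpa using h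
    · right; simp only [Set.mem_singleton_iff]; linear_combination -h
  exact (Set.ncard_le_ncard this).trans (Set.ncard_insert_le _ _ |>.trans (by simp))

abbrev WW (m q : ℕ) := ZMod m × Fin q
abbrev HH (m q : ℕ) := Fin (rr m + 3) × WW m q
abbrev MM (m q t : ℕ) := WW m q ⊕ Fin t
abbrev VV (m q t : ℕ) := HH m q ⊕ MM m q t

variable {m q t : ℕ}

def adj (b : WW m q → Fin t) : VV m q t → VV m q t → Prop
  | .inl x, .inl y => x.1 = y.1 ∧ x.2.2 = y.2.2 ∧ y.2.1 ∈ cyc m x.2.1
  | .inl x, .inr u => u = .inl x.2 ∨ u = .inr (b x.2)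
  | .inr u, .inl x => u = .inl x.2 ∨ u = .inr (b x.2)
  | .inr _, .inr _ => False

def GG (b : WW m q → Fin t) : SimpleGraph (VV m q t) where
  Adj := adj b
  symm := ⟨by
    rintro (x | x) (y | y) h
    · exact ⟨h.1.symm, h.2.1.symm, h.2.2.1.symm, h.2.2.2.symm⟩
    · exact h
    · exact h
    · exact h⟩
  loopless := ⟨by
    rintro (x | x) h
    · exact h.2.2.1 rfl
    · exact h⟩

variable (b : WW m q → Fin t)

lemma deg_H [NeZero m] (x : HH m q) : deg (GG b) (.inl x) = rr m + 2 := by
  unfold deg
  have : (GG b).neighborSet (.inl x) =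
      insert (.inr (.inl x.2)) (insert (.inr (.inr (b x.2)))
        ((fun c => (Sum.inl (x.1, c, x.2.2) : VV m q t)) '' cyc m x.2.1)) := by
    ext (y | y)
    · obtain ⟨i, a, j⟩ := x
      obtain ⟨i', a', j'⟩ := y
      simp only [mem_neighborSet, GG, adj, Set.mem_insert_iff, reduceCtorEq, Set.mem_image,
        Sum.inl.injEq, Prod.mk.injEq, false_or]
      constructor
      · rintro ⟨h1, h2, h3⟩; exact ⟨a', h3, h1, rfl, h2⟩
      · rintro ⟨c, h3, h1, rfl, h2⟩; exact ⟨h1, h2, h3⟩
    · simp [GG, adj]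
  rw [this, Set.ncard_insert_of_notMem (by simp), Set.ncard_insert_of_notMem (by simp),
    Set.ncard_image_of_injective _ (fun c c' h => by simpa using h), ncard_cyc]

lemma deg_M1 [NeZero m] (w : WW m q) : deg (GG b) (.inr (.inl w)) = rr m + 3 := by
  unfold deg
  have : (GG b).neighborSet (.inr (.inl w)) =
        ((fun i => (Sum.inl (i, w) : VV m q t)) '' Set.univ) := by
    ext (y | y)
    · obtain ⟨i', w'⟩ := y
      simp [GG, adj]
    · simp [GG, adj]
  rw [this, Set.ncard_image_of_injective _ (fun c c' h => by simpa using h)]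
  simp [Set.ncard_univ]

lemma exists_nbr (hb : Function.Surjective b) (u : MM m q t) :
    ∃ w : WW m q, ∀ i, (GG b).Adj (.inl (i, w)) (.inr u) := by
  rcases u with w | z
  · exact ⟨w, fun i => Or.inl rfl⟩
  · obtain ⟨w, rfl⟩ := hb z
    exact ⟨w, fun i => Or.inr rfl⟩

lemma deg_M [NeZero m] (hb : Function.Surjective b) (u : MM m q t) :
    rr m + 3 ≤ deg (GG b) (.inr u) := by
  obtain ⟨w, hw⟩ := exists_nbr b hb u
  unfold deg
  have : ((fun i => (Sum.inl (i, w) : VV m q t)) '' Set.univ) ⊆ (GG b).neighborSet (.inr u) := by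
    rintro _ ⟨i, -, rfl⟩
    exact (hw i).symm
  refine le_trans ?_ (Set.ncard_le_ncard this)
  rw [Set.ncard_image_of_injective _ (fun c c' h => by simpa using h)]
  simp [Set.ncard_univ]

lemma chain_M [NeZero m] (hb : Function.Surjective b) (u : MM m q t) (l : List (VV m q t))
    (h2 : (Sum.inr u :: l).IsChain (GG b).Adj)
    (h3 : (Sum.inr u :: l).IsChain (fun u v => deg (GG b) u ≤ deg (GG b) v)) : l = [] := by
  match l, h2, h3 with
  | [], _, _ => rfl
  | .inl x :: l, _, h3 =>
    have := (List.isChain_cons_cons.1 h3).1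
    have h4 := deg_M b hb u
    rw [deg_H] at this
    omega
  | .inr x :: l, h2, _ => exact absurd (List.isChain_cons_cons.1 h2).1 (by simp [GG, adj])

lemma chain_H [NeZero m] (hb : Function.Surjective b) (l : List (VV m q t)) :
    ∀ x : HH m q, (Sum.inl x :: l).IsChain (GG b).Adj →
    (Sum.inl x :: l).IsChain (fun u v => deg (GG b) u ≤ deg (GG b) v) →
    ∃ z : VV m q t, ∀ y ∈ (Sum.inl x :: l), y = z ∨ ∃ c, y = Sum.inl (x.1, c, x.2.2) := by
  induction l with
  | nil => intro x _ _; exact ⟨.inl x, by simp⟩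
  | cons y l ih =>
    intro x h2 h3
    rw [List.isChain_cons_cons] at h2 h3
    rcases y with y | u
    · obtain ⟨z, hz⟩ := ih y h2.2 h3.2
      refine ⟨z, fun y' hy' => ?_⟩
      rcases List.mem_cons.1 hy' with rfl | hy'
      · exact Or.inr ⟨x.2.1, rfl⟩
      · have := hz y' hy'
        rwa [← h2.1.1, ← h2.1.2.1] at this
    · obtain rfl := chain_M b hb u l h2.2 h3.2
      refine ⟨.inr u, fun y' hy' => ?_⟩
      rcases List.mem_cons.1 hy' with rfl | hy'
      · exact Or.inr ⟨x.2.1, rfl⟩
      · left; simpa using hy'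

lemma mp_GG [NeZero m] (hb : Function.Surjective b) : mp (GG b) ≤ m + 1 := by
  classical
  refine mp_le fun l h1 h2 h3 => ?_
  match l, h1, h2, h3 with
  | [], _, _, _ => simp
  | .inr u :: l, _, h2, h3 => simp [chain_M b hb u l h2 h3]
  | .inl x :: l, h1, h2, h3 =>
    obtain ⟨z, hz⟩ := chain_H b hb l x h2 h3
    rw [← List.toFinset_card_of_nodup h1]
    have : (Sum.inl x :: l).toFinset ⊆
        insert z (Finset.univ.image fun c : ZMod m => (Sum.inl (x.1, c, x.2.2) : VV m q t)) := by
      intro y hy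
      rcases hz y (List.mem_toFinset.1 hy) with rfl | ⟨c, rfl⟩
      · simp
      · simp
    refine (Finset.card_le_card this).trans ((Finset.card_insert_le _ _).trans ?_)
    have := Finset.card_image_le (s := Finset.univ)
      (f := fun c : ZMod m => (Sum.inl (x.1, c, x.2.2) : VV m q t))
    simp only [Finset.card_univ, ZMod.card] at this
    omega

/-- the column of a vertex -/
def col : VV m q t → Option (Fin (rr m + 3))
  | .inl x => some x.1
  | .inr _ => none

lemma exists_col (x y : VV m q t) : ∃ i, col x ≠ some i ∧ col y ≠ some i := by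
  by_contra! h
  have h0 := h ⟨0, by omega⟩
  have h1 := h ⟨1, by omega⟩
  have h2 := h ⟨2, by omega⟩
  by_cases e0 : col x = some ⟨0, by omega⟩
  · have a1 := h1 (by simp [e0])
    have a2 := h2 (by simp [e0])
    simp [a1] at a2
  · have a0 := h0 e0
    have a1 : col x = some ⟨1, by omega⟩ := by
      by_contra e1
      have := h1 e1
      simp [a0] at this
    have a2 := h2 (by simp [a1])
    simp [a0] at a2

lemma long_path [NeZero m] (hb : Function.Surjective b) (x y : VV m q t) (u : MM m q t)
    (v : VV m q t) (hv : v = x ∨ v = y) (huv : (GG b ⊔ edge x y).Adj (.inr u) v)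
    (h1 : rr m + 2 ≤ deg (GG b ⊔ edge x y) (.inr u))
    (h2 : deg (GG b ⊔ edge x y) (.inr u) ≤ deg (GG b ⊔ edge x y) v) :
    m + 2 ≤ mp (GG b ⊔ edge x y) := by
  obtain ⟨⟨a, j⟩, hw⟩ := exists_nbr b hb u
  obtain ⟨i, hix, hiy⟩ := exists_col x y
  set f : ℕ → VV m q t := fun s => .inl (i, a + 1 + s, j) with hf
  have hm : 0 < m := Nat.pos_of_ne_zero (NeZero.ne m)
  have hfx : ∀ s, f s ≠ x := fun s h => hix (by rw [← h]; rfl)
  have hfy : ∀ s, f s ≠ y := fun s h => hiy (by rw [← h]; rfl)
  have hdeg : ∀ s, deg (GG b ⊔ edge x y) (f s) = rr m + 2 := fun s => by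
    rw [deg_sup_edge_of_ne (hfx s) (hfy s), deg_H]
  have hinj : ∀ s ∈ List.range m, ∀ s' ∈ List.range m, f s = f s' → s = s' := by
    intro s hs s' hs' h
    simp only [hf, Sum.inl.injEq, Prod.mk.injEq, add_right_inj, and_true, true_and] at h
    rw [List.mem_range] at hs hs'
    have := (ZMod.natCast_eq_natCast_iff' s s' m).1 h
    rwa [Nat.mod_eq_of_lt hs, Nat.mod_eq_of_lt hs'] at this
  have hlast : ∀ z ∈ ((List.range m).map f).getLast?, z = .inl (i, a, j) := by
    intro z hz
    obtain ⟨m', rfl⟩ : ∃ m', m = m' + 1 := ⟨m - 1, by omega⟩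
    rw [List.range_succ, List.map_append] at hz
    simp only [List.map_cons, List.map_nil, List.getLast?_append, List.getLast?_singleton,
      Option.some_or, Option.mem_def, Option.some.injEq] at hz
    rw [← hz]
    simp only [hf, Sum.inl.injEq, Prod.mk.injEq, and_true, true_and]
    have : ((m' + 1 : ℕ) : ZMod (m' + 1)) = 0 := ZMod.natCast_self _
    push_cast at this
    linear_combination this
  have : IsDMPath (GG b ⊔ edge x y) ((List.range m).map f ++ [.inr u, v]) := by
    refine ⟨?_, ?_, Or.inl ?_⟩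
    · rw [List.nodup_append]
      refine ⟨List.Nodup.map_on hinj List.nodup_range, by simpa using huv.ne, ?_⟩
      intro z hz z' hz'
      obtain ⟨s, -, rfl⟩ := List.mem_map.1 hz
      simp only [List.mem_cons, List.not_mem_nil, or_false] at hz'
      rcases hz' with rfl | rfl
      · simp [hf]
      · rcases hv with rfl | rfl
        · exact hfx s
        · exact hfy s
    · refine List.IsChain.append ?_ (by simpa using huv) ?_
      · rw [List.isChain_map, List.isChain_range]
        intro s hs
        left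
        refine ⟨rfl, rfl, fun h => ?_, Or.inl (by push_cast; ring)⟩
        have := hinj s (by simp; omega) (s + 1) (by simp; omega) (by simp only [hf]; simp only at h; rw [h])
        omega
      · intro z hz z' hz'
        obtain rfl := hlast z hz
        simp only [List.head?_cons, Option.mem_def, Option.some.injEq] at hz'
        subst hz'
        exact Or.inl (hw i)
    · refine List.IsChain.append ?_ (by simpa using h2) ?_
      · rw [List.isChain_map, List.isChain_range]
        intro s hs
        rw [hdeg, hdeg]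
      · intro z hz z' hz'
        obtain ⟨s, -, rfl⟩ := List.mem_map.1 (List.mem_of_mem_getLast? hz)
        simp only [List.head?_cons, Option.mem_def, Option.some.injEq] at hz'
        subst hz'
        rw [hdeg]; exact h1
  simpa using le_mp this

lemma sat_H [NeZero m] (hb : Function.Surjective b) (x : HH m q) (y : VV m q t)
    (hne : Sum.inl x ≠ y) (hadj : ¬ (GG b).Adj (.inl x) y) :
    m + 2 ≤ mp (GG b ⊔ edge (.inl x) y) := by
  have hu : (GG b).Adj (.inl x) (.inr (.inl x.2)) := Or.inl rfl
  have hd : deg (GG b ⊔ edge (.inl x) y) (.inr (.inl x.2)) = rr m + 3 := by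
    rw [deg_sup_edge_of_ne (x := .inl x) (y := y) (by simp)
      (fun h => hadj (by rw [← h]; exact hu)), deg_M1]
  refine long_path b hb _ _ (.inl x.2) _ (Or.inl rfl) (Or.inl hu.symm) (by omega) ?_
  rw [hd, deg_sup_edge_left hne hadj, deg_H]

lemma sat_M [NeZero m] (hb : Function.Surjective b) (x y : MM m q t)
    (hne : (Sum.inr x : VV m q t) ≠ .inr y) (hle : deg (GG b) (.inr x) ≤ deg (GG b) (.inr y)) :
    m + 2 ≤ mp (GG b ⊔ edge (.inr x) (.inr y)) := by
  have hadj : ¬ (GG b).Adj (.inr x) (.inr y) := fun h => h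
  have := deg_M b hb x
  refine long_path b hb _ _ x _ (Or.inr rfl) (Or.inr (by simp [edge_adj]; simpa using hne)) ?_ ?_
  · rw [deg_sup_edge_left hne hadj]; omega
  · rw [deg_sup_edge_left hne hadj, deg_sup_edge_right hne hadj]; omega

lemma saturated_GG [NeZero m] (hb : Function.Surjective b) : Saturated (m + 2) (GG b) := by
  refine ⟨Nat.lt_succ_of_le (mp_GG b hb), ?_⟩
  rintro (x | x) (y | y) hne hadj
  · exact sat_H b hb _ _ hne hadj
  · exact sat_H b hb _ _ hne hadj
  · rw [edge_comm]; exact sat_H b hb _ _ hne.symm fun h => hadj h.symm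
  · rcases le_total (deg (GG b) (.inr x)) (deg (GG b) (.inr y)) with h | h
    · exact sat_M b hb _ _ hne h
    · rw [edge_comm]; exact sat_M b hb _ _ hne.symm h

lemma edges_GG [NeZero m] : (GG b).edgeSet.ncard ≤ 3 * ((rr m + 3) * (m * q)) := by
  let g : Fin 3 × HH m q → Sym2 (VV m q t) := fun p =>
    s(.inl p.2, ![.inl (p.2.1, p.2.2.1 + 1, p.2.2.2), .inr (.inl p.2.2), .inr (.inr (b p.2.2))] p.1)
  have : (GG b).edgeSet ⊆ g '' Set.univ := by
    intro e he
    induction e using Sym2.ind with
    | h x y =>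
    rcases x with x | x <;> rcases y with y | y
    · obtain ⟨i, a, j⟩ := x
      obtain ⟨i', a', j'⟩ := y
      obtain ⟨h1, h2, -, h3 | h3⟩ := he
      · refine ⟨(0, i, a, j), trivial, ?_⟩
        simp only at h1 h2 h3
        simp [g, h1, h2, h3]
      · refine ⟨(0, i', a', j'), trivial, ?_⟩
        simp only at h1 h2 h3
        simp [g, h1, h2, h3]
    · rcases he with rfl | rfl
      · exact ⟨(1, x), trivial, by simp [g]⟩
      · exact ⟨(2, x), trivial, by simp [g]⟩
    · rcases he with rfl | rfl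
      · exact ⟨(1, y), trivial, by simp [g]⟩
      · exact ⟨(2, y), trivial, by simp [g]⟩
    · exact absurd he (fun h => h)
  refine (Set.ncard_le_ncard this).trans ((Set.ncard_image_le).trans ?_)
  simp [Set.ncard_univ]

lemma exists_graph (k : ℕ) (hk : 2 ≤ k) : ∃ N, ∀ n, N ≤ n →
    ∃ G : SimpleGraph (Fin n), Saturated k G ∧ 2 * G.edgeSet.ncard ≤ 5 * n := by
  rcases hk.eq_or_lt with rfl | hk
  · exact ⟨0, fun n _ => ⟨⊥, saturated_bot n, by simp⟩⟩
  obtain ⟨m, rfl⟩ : ∃ m, k = m + 2 := ⟨k - 2, by omega⟩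
  have : NeZero m := ⟨by omega⟩
  have hm : 0 < m := by omega
  set s := rr m + 4 with hs
  refine ⟨s * m * s + 1, fun n hn => ?_⟩
  have hsm : 0 < s * m := by positivity
  set q := (n - 1) / (s * m) with hq
  have hq1 : s ≤ q := by
    rw [hq, Nat.le_div_iff_mul_le hsm, mul_comm]; omega
  have hq2 : s * m * q ≤ n - 1 := Nat.mul_div_le _ _
  have hq3 : n - 1 < s * m * q + s * m := by
    have := Nat.div_add_mod (n - 1) (s * m)
    have := Nat.mod_lt (n - 1) hsm
    rw [← hq] at *
    omega
  set t := n - s * m * q with ht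
  have ht1 : 1 ≤ t := by omega
  have ht2 : t ≤ m * q := by
    have : s * m ≤ m * q := by rw [mul_comm]; exact Nat.mul_le_mul_left _ hq1
    omega
  obtain ⟨b, hb⟩ : ∃ b : WW m q → Fin t, Function.Surjective b := by
    rw [Function.exists_surjective_iff]
    refine ⟨⟨fun _ => ⟨0, ht1⟩⟩, Function.Embedding.nonempty_of_card_le ?_⟩
    simpa using ht2
  have hcard : Fintype.card (Fin n) = Fintype.card (VV m q t) := by
    simp only [Fintype.card_fin, Fintype.card_sum, Fintype.card_prod, ZMod.card]
    have : s * m * q = (rr m + 3) * (m * q) + m * q := by rw [hs]; ring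
    omega
  let e := Fintype.equivOfCardEq hcard
  refine ⟨(GG b).comap e, saturated_comap e (saturated_GG b hb), ?_⟩
  rw [ncard_edge_comap]
  have h1 := edges_GG b
  have h2 := rr_le m
  have h3 : s * m * q = (rr m + 3) * (m * q) + m * q := by rw [hs]; ring
  have h4 : (rr m + 3) * (m * q) ≤ 5 * (m * q) := Nat.mul_le_mul_right _ (by omega)
  omega

end Pool.Agent.MP_161132_co.H85
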