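import Mathlib

namespace Pool.Agent.MP_161132_co.H85

open SimpleGraph

/-- The degree of the vertex `v` in the graph `G`. -/
noncomputable def deg {V : Type} (G : SimpleGraph V) (v : V) : ℕ := (G.neighborSet v).ncard

/-- The list `l` of vertices is a degree monotone path of `G`: distinct vertices, consecutive
ones adjacent, degrees non-decreasing or non-increasing along the list. -/
def IsDMPath {V : Type} (G : SimpleGraph V) (l : List V) : Prop :=
  l.Nodup ∧ l.IsChain G.Adj ∧
    (l.IsChain (fun u v => deg G u ≤ deg G v) ∨ l.IsChain (fun u v => deg G u ≥ deg G v))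

/-- `mp G` is the largest number of vertices of a degree monotone path of `G`. -/
noncomputable def mp {V : Type} (G : SimpleGraph V) : ℕ :=
  sSup {m : ℕ | ∃ l : List V, IsDMPath G l ∧ l.length = m}

/-- `G` is `k`-saturated: `mp G < k`, and `mp (G + uv) ≥ k` for all distinct non-adjacent
vertices `u`, `v`. -/
def Saturated {V : Type} (k : ℕ) (G : SimpleGraph V) : Prop :=
  mp G < k ∧ ∀ u v : V, u ≠ v → ¬ G.Adj u v → k ≤ mp (G ⊔ SimpleGraph.edge u v)

/-- `h n k` is the least number of edges of a `k`-saturated graph on `n` vertices. -/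
noncomputable def h (n k : ℕ) : ℕ :=
  sInf {e : ℕ | ∃ G : SimpleGraph (Fin n), Saturated k G ∧ G.edgeSet.ncard = e}

end Pool.Agent.MP_161132_co.H85
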